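import Pool.Agent.W770.KP.Stm

set_option autoImplicit false

namespace Pool.Agent.W214.KP

open Pool.Agent.W770.KP
open scoped Classical

theorem exists_aut {F E : Type} [Field F] [AddCommGroup E] [Module F E] [Fintype E] (v v' : E)
    (hv : v ≠ 0) (hv' : v' ≠ 0) : ∃ g : E ≃ₗ[F] E, g v = v' := by
  obtain ⟨g, hg⟩ := Submodule.exists_linearEquiv_restrict_eq
    ((LinearEquiv.toSpanNonzeroSingleton F E v hv).symm ≪≫ₗ
      (LinearEquiv.toSpanNonzeroSingleton F E v' hv'))
  refine ⟨g, ?_⟩
  have h := hg ⟨v, Submodule.mem_span_singleton_self v⟩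
  have h2 : (LinearEquiv.toSpanNonzeroSingleton F E v hv).symm
      ⟨v, Submodule.mem_span_singleton_self v⟩ = 1 := by
    rw [LinearEquiv.symm_apply_eq]
    apply Subtype.ext
    simp
  have h3 : g v = ((LinearEquiv.toSpanNonzeroSingleton F E v' hv') 1 : E) := by
    rw [← h2]
    exact h.symm
  rw [h3]
  simp

theorem h_le {F E : Type} [Field F] [AddCommGroup E] [Module F E] [Fintype E] (k : ℕ) (v v' : E)
    (hv : v ≠ 0) (hv' : v' ≠ 0) :
    ((Gr F E k).filter (fun W => v ∈ W)).card ≤ ((Gr F E k).filter (fun W => v' ∈ W)).card := by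
  obtain ⟨g, hg⟩ := exists_aut (F := F) v v' hv hv'
  refine Finset.card_le_card_of_injOn (fun W => W.map (g : E →ₗ[F] E)) ?_ ?_
  · intro W hW
    have hW' := Finset.mem_filter.mp hW
    have hG := (Finset.mem_filter.mp hW'.1).2
    refine Finset.mem_filter.mpr ⟨Finset.mem_filter.mpr ⟨Finset.mem_univ _, ?_⟩, ?_⟩
    · rw [← hG]
      exact LinearEquiv.finrank_map_eq g W
    · rw [← hg]
      exact Submodule.mem_map_of_mem (f := (g : E →ₗ[F] E)) hW'.2
  · intro W _ W' _ h
    exact Submodule.map_injective_of_injective (f := (g : E →ₗ[F] E)) g.injective h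

theorem card_sub {F E : Type} [Field F] [Fintype F] [AddCommGroup E] [Module F E] [Fintype E]
    (W : Submodule F E) :
    ((Finset.univ.filter (fun v : E => v ≠ 0)).filter (fun v => v ∈ W)).card + 1
      = Fintype.card F ^ Module.finrank F W := by
  rw [← Module.card_eq_pow_finrank (K := F) (V := W)]
  have h1 : ((Finset.univ.filter (fun v : E => v ≠ 0)).filter (fun v => v ∈ W))
      = (Finset.univ.filter (fun v : E => v ∈ W)).erase 0 := by
    ext v
    simp only [Finset.mem_filter, Finset.mem_univ, true_and, Finset.mem_erase]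
  have h0 : (0 : E) ∈ Finset.univ.filter (fun v : E => v ∈ W) := by
    simp
  rw [h1, Finset.card_erase_add_one h0]
  rw [Fintype.card_subtype]

theorem gc : S_GC := by
  intro F E _ _ _ _ _ k hk v hv
  have hconst : ∀ v' : E, v' ≠ 0 → ((Gr F E k).filter (fun W => v' ∈ W)).card
      = ((Gr F E k).filter (fun W => v ∈ W)).card := fun v' hv' =>
    le_antisymm (h_le k v' v hv' hv) (h_le k v v' hv hv')
  have hdc : ∑ v' ∈ Finset.univ.filter (fun v : E => v ≠ 0),
      ((Gr F E k).filter (fun W => v' ∈ W)).card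
      = ∑ W ∈ Gr F E k, ((Finset.univ.filter (fun v : E => v ≠ 0)).filter (fun v => v ∈ W)).card := by
    exact Finset.sum_card_bipartiteAbove_eq_sum_card_bipartiteBelow (fun (v : E) (W : Submodule F E) => v ∈ W)
  have hl : ∑ v' ∈ Finset.univ.filter (fun v : E => v ≠ 0),
      ((Gr F E k).filter (fun W => v' ∈ W)).card
      = (Finset.univ.filter (fun v : E => v ≠ 0)).card * ((Gr F E k).filter (fun W => v ∈ W)).card := by
    rw [Finset.sum_congr rfl (fun v' hv' => hconst v' (Finset.mem_filter.mp hv').2), Finset.sum_const,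
      smul_eq_mul]
  have hcV : (Finset.univ.filter (fun v : E => v ≠ 0)).card + 1
      = Fintype.card F ^ Module.finrank F E := by
    rw [← Module.card_eq_pow_finrank (K := F) (V := E), Finset.filter_ne',
      Finset.card_erase_add_one (Finset.mem_univ _), Finset.card_univ]
  have hr : (∑ W ∈ Gr F E k,
      (((Finset.univ.filter (fun v : E => v ≠ 0)).filter (fun v => v ∈ W)).card : ℝ))
      = ((Gr F E k).card : ℝ) * ((Fintype.card F : ℝ) ^ k - 1) := by
    rw [← nsmul_eq_mul, ← Finset.sum_const]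
    refine Finset.sum_congr rfl fun W hW => ?_
    have hG := (Finset.mem_filter.mp hW).2
    have h := card_sub W
    rw [hG] at h
    have h2 : ((((Finset.univ.filter (fun v : E => v ≠ 0)).filter (fun v => v ∈ W)).card : ℝ)) + 1
        = (Fintype.card F : ℝ) ^ k := by exact_mod_cast h
    linarith
  have hcV' : ((Finset.univ.filter (fun v : E => v ≠ 0)).card : ℝ) + 1
      = (Fintype.card F : ℝ) ^ Module.finrank F E := by exact_mod_cast hcV
  have hmain : ((Finset.univ.filter (fun v : E => v ≠ 0)).card : ℝ)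
      * (((Gr F E k).filter (fun W => v ∈ W)).card : ℝ)
      = ((Gr F E k).card : ℝ) * ((Fintype.card F : ℝ) ^ k - 1) := by
    rw [← hr, ← Nat.cast_mul, ← hl, hdc, Nat.cast_sum]
  rw [← hmain, ← hcV']
  ring

end Pool.Agent.W214.KP
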